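import Mathlib

/-!
# The decoupling lemma (independent events)

`Q` is a function of the part of the random set outside of `V` with values in the subsets of `V`. Then the probability
that `Q` has at least `R` elements and none of them is in the random set is at most `(1 - c)^R`.
-/

set_option autoImplicit false

namespace Pool.Agent.CM69

open MeasureTheory ProbabilityTheory Finset

variable {Ω : Type*} [mΩ : MeasurableSpace Ω] {μ : Measure Ω} {E : ℕ → Set Ω}

open Classical in
/-- The part below `X` and outside of `V` of the random set `{m : ω ∈ E m}`. -/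
noncomputable def tr (E : ℕ → Set Ω) (X : ℕ) (V : Finset ℕ) (ω : Ω) : Finset ℕ :=
  (range X \ V).filter (fun m => ω ∈ E m)

omit mΩ in
theorem mem_tr {X : ℕ} {V : Finset ℕ} {ω : Ω} {m : ℕ} :
    m ∈ tr E X V ω ↔ m < X ∧ m ∉ V ∧ ω ∈ E m := by
  classical
  unfold tr
  rw [mem_filter, mem_sdiff, mem_range, and_assoc]

theorem real_biInter [IsProbabilityMeasure μ] (hi : iIndepSet E μ) (S : Finset ℕ)
    (f : ℕ → Set Ω) (hf : ∀ m ∈ S, f m = E m ∨ f m = (E m)ᶜ) :
    μ.real (⋂ m ∈ S, f m) = ∏ m ∈ S, μ.real (f m) := by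
  have h1 : μ (⋂ m ∈ S, f m) = ∏ m ∈ S, μ (f m) := by
    refine iIndep.meas_biInter ((iIndepSet_iff_iIndep _ _).1 hi) fun m hm => ?_
    have h2 : MeasurableSet[MeasurableSpace.generateFrom {E m}] (E m) :=
      MeasurableSpace.measurableSet_generateFrom (Set.mem_singleton _)
    rcases hf m hm with h | h
    · rw [h]
      exact h2
    · rw [h]
      exact h2.compl
  simp only [Measure.real, h1, ENNReal.toReal_prod]

theorem key [IsProbabilityMeasure μ] (hE : ∀ m, MeasurableSet (E m)) (hi : iIndepSet E μ)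
    (X : ℕ) (V : Finset ℕ) {c : ℝ} (h0 : 0 ≤ c) (h1 : c ≤ 1) (hc : ∀ m ∈ V, c ≤ μ.real (E m))
    (Q : Finset ℕ → Finset ℕ) (hQ : ∀ G, Q G ⊆ V) (R : ℕ) :
    μ.real {ω | R ≤ (Q (tr E X V ω)).card ∧ ∀ q ∈ Q (tr E X V ω), ω ∉ E q} ≤ (1 - c) ^ R := by
  classical
  obtain ⟨B, hB⟩ : ∃ B, B = range X \ V := ⟨_, rfl⟩
  let f : Finset ℕ → ℕ → Set Ω := fun G m => if m ∈ G then E m else (E m)ᶜ
  let g : Finset ℕ → ℕ → Set Ω := fun G m => if m ∈ B then f G m else (E m)ᶜ
  have hf : ∀ G m, f G m = E m ∨ f G m = (E m)ᶜ := by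
    intro G m
    simp only [f]
    split_ifs
    · exact Or.inl rfl
    · exact Or.inr rfl
  have hg : ∀ G m, g G m = E m ∨ g G m = (E m)ᶜ := by
    intro G m
    simp only [g]
    split_ifs
    · exact hf G m
    · exact Or.inr rfl
  have hgm : ∀ G m, MeasurableSet (g G m) := by
    intro G m
    rcases hg G m with h | h
    · rw [h]
      exact hE m
    · rw [h]
      exact (hE m).compl
  have hfm : ∀ G m, MeasurableSet (f G m) := by
    intro G m
    rcases hf G m with h | h
    · rw [h]
      exact hE m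
    · rw [h]
      exact (hE m).compl
  -- the event `tr = G`
  have hC : ∀ G ∈ B.powerset, {ω | tr E X V ω = G} = ⋂ m ∈ B, f G m := by
    intro G hG
    rw [mem_powerset] at hG
    ext ω
    rw [Set.mem_ofPred_eq, Set.mem_iInter₂]
    constructor
    · intro h m hm
      simp only [f]
      rw [hB, mem_sdiff, mem_range] at hm
      split_ifs with h2
      · rw [← h, mem_tr] at h2
        exact h2.2.2
      · rw [Set.mem_compl_iff]
        intro h3
        exact h2 (by rw [← h, mem_tr]; exact ⟨hm.1, hm.2, h3⟩)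
    · intro h
      ext m
      rw [mem_tr]
      constructor
      · rintro ⟨h2, h3, h4⟩
        have h5 := h m (by rw [hB, mem_sdiff, mem_range]; exact ⟨h2, h3⟩)
        simp only [f] at h5
        by_contra h6
        rw [if_neg h6] at h5
        exact h5 h4
      · intro h2
        have h3 := hG h2
        have h5 := h m h3
        rw [hB, mem_sdiff, mem_range] at h3
        simp only [f] at h5
        rw [if_pos h2] at h5
        exact ⟨h3.1, h3.2, h5⟩
  have hCm : ∀ G ∈ B.powerset, MeasurableSet {ω | tr E X V ω = G} := by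
    intro G hG
    rw [hC G hG]
    exact Finset.measurableSet_biInter _ fun m _ => hfm G m
  have hcov : {ω | R ≤ (Q (tr E X V ω)).card ∧ ∀ q ∈ Q (tr E X V ω), ω ∉ E q} ⊆
      ⋃ G ∈ B.powerset.filter (fun G => R ≤ (Q G).card), ⋂ m ∈ B ∪ Q G, g G m := by
    rintro ω ⟨h2, h3⟩
    rw [Set.mem_iUnion₂]
    have h4 : tr E X V ω ∈ B.powerset := by
      rw [mem_powerset, hB]
      unfold tr
      exact filter_subset _ _
    refine ⟨tr E X V ω, mem_filter.2 ⟨h4, h2⟩, ?_⟩
    rw [Set.mem_iInter₂]
    intro m hm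
    simp only [g]
    split_ifs with h5
    · have h6 : ω ∈ {ω' | tr E X V ω' = tr E X V ω} := rfl
      rw [hC _ h4, Set.mem_iInter₂] at h6
      exact h6 m h5
    · rw [mem_union] at hm
      rcases hm with hm | hm
      · exact absurd hm h5
      · exact h3 m hm
  have hone : ∀ G ∈ B.powerset.filter (fun G => R ≤ (Q G).card),
      μ.real (⋂ m ∈ B ∪ Q G, g G m) ≤ μ.real {ω | tr E X V ω = G} * (1 - c) ^ R := by
    intro G hG
    rw [mem_filter] at hG
    have hdis : Disjoint B (Q G) := by
      rw [disjoint_left]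
      intro m hm hm'
      rw [hB, mem_sdiff] at hm
      exact hm.2 (hQ G hm')
    rw [real_biInter hi _ _ fun m _ => hg G m, prod_union hdis, hC G hG.1,
      real_biInter hi _ _ fun m _ => hf G m]
    have h2 : ∏ m ∈ B, μ.real (g G m) = ∏ m ∈ B, μ.real (f G m) := by
      refine prod_congr rfl fun m hm => ?_
      simp only [g]
      rw [if_pos hm]
    rw [h2]
    refine mul_le_mul_of_nonneg_left ?_ (prod_nonneg fun m _ => measureReal_nonneg)
    calc ∏ m ∈ Q G, μ.real (g G m) ≤ ∏ _m ∈ Q G, (1 - c) := by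
          refine prod_le_prod (fun m _ => measureReal_nonneg) fun m hm => ?_
          have h3 : g G m = (E m)ᶜ := by
            simp only [g]
            rw [if_neg (disjoint_right.1 hdis hm)]
          rw [h3, probReal_compl_eq_one_sub (hE m)]
          linarith [hc m (hQ G hm)]
      _ = (1 - c) ^ (Q G).card := by rw [prod_const]
      _ ≤ (1 - c) ^ R := pow_le_pow_of_le_one (by linarith) (by linarith) hG.2
  have hsum : ∑ G ∈ B.powerset, μ.real {ω | tr E X V ω = G} ≤ 1 := by
    have h2 : Set.PairwiseDisjoint (↑(B.powerset)) (fun G => {ω | tr E X V ω = G}) := by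
      intro G _ G' _ hne
      rw [Function.onFun, Set.disjoint_left]
      intro ω h3 h4
      exact hne (h3.symm.trans h4)
    rw [← measureReal_biUnion_finset h2 hCm]
    exact measureReal_le_one
  calc μ.real {ω | R ≤ (Q (tr E X V ω)).card ∧ ∀ q ∈ Q (tr E X V ω), ω ∉ E q}
      ≤ μ.real (⋃ G ∈ B.powerset.filter (fun G => R ≤ (Q G).card), ⋂ m ∈ B ∪ Q G, g G m) :=
        measureReal_mono hcov (measure_ne_top _ _)
    _ ≤ ∑ G ∈ B.powerset.filter (fun G => R ≤ (Q G).card), μ.real (⋂ m ∈ B ∪ Q G, g G m) :=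
        measureReal_biUnion_finset_le _ _
    _ ≤ ∑ G ∈ B.powerset.filter (fun G => R ≤ (Q G).card),
        μ.real {ω | tr E X V ω = G} * (1 - c) ^ R := sum_le_sum hone
    _ ≤ ∑ G ∈ B.powerset, μ.real {ω | tr E X V ω = G} * (1 - c) ^ R := by
        refine sum_le_sum_of_subset_of_nonneg (filter_subset _ _) fun G _ _ => ?_
        exact mul_nonneg measureReal_nonneg (pow_nonneg (by linarith) R)
    _ = (∑ G ∈ B.powerset, μ.real {ω | tr E X V ω = G}) * (1 - c) ^ R := by rw [sum_mul]
    _ ≤ 1 * (1 - c) ^ R := mul_le_mul_of_nonneg_right hsum (pow_nonneg (by linarith) R)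
    _ = (1 - c) ^ R := one_mul _

end Pool.Agent.CM69
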